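import Mathlib

/-!
Mathon 8-arcs in PG(2, q), q even.  A set of projective points is represented by the set of all
nonzero vectors of its points.
-/

set_option autoImplicit false

namespace Pool.Agent.MP_df3b73_co.H70

variable {F : Type} [Field F]

/-- The conic `α x² + x y + β y² + λ z² = 0` given by the triple `(α, β, λ)`. -/
def conic (c : F × F × F) : Set (Fin 3 → F) :=
  {v | v ≠ 0 ∧ c.1 * v 0 ^ 2 + v 0 * v 1 + c.2.1 * v 1 ^ 2 + c.2.2 * v 2 ^ 2 = 0}

/-- Mathon's composition of two conics. -/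
def oplus (c c' : F × F × F) : F × F × F :=
  ((c.1 * c.2.2 + c'.1 * c'.2.2) / (c.2.2 + c'.2.2),
    (c.2.1 * c.2.2 + c'.2.1 * c'.2.2) / (c.2.2 + c'.2.2), c.2.2 + c'.2.2)

/-- A closed set of 7 conics. -/
def ClosedSeven [Algebra (ZMod 2) F] (C : Finset (F × F × F)) : Prop :=
  C.card = 7 ∧ (∀ c ∈ C, Algebra.trace (ZMod 2) F (c.1 * c.2.1) = 1 ∧ c.2.2 ≠ 0) ∧
    ∀ c ∈ C, ∀ c' ∈ C, c ≠ c' → c.2.2 ≠ c'.2.2 ∧ oplus c c' ∈ C

/-- The points of the conics together with the common nucleus `(0,0,1)`. -/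
def arc (C : Set (F × F × F)) : Set (Fin 3 → F) :=
  {v | v ≠ 0 ∧ v 0 = 0 ∧ v 1 = 0} ∪ ⋃ c ∈ C, conic c

/-- The semilinear map `v ↦ M v^σ`; for `det M ≠ 0` these maps induce the group PΓL(3, q). -/
def coll (σ : F ≃+* F) (M : Matrix (Fin 3) (Fin 3) F) (v : Fin 3 → F) : Fin 3 → F :=
  M.mulVec fun i => σ (v i)

/-- The arc of `C` is equivalent to the arc of conics `F_{α,1,λ}`, `λ ∈ A \ {0}`, for an additive
subgroup `A` of order 8 and `Tr α = 1`. -/
def Denniston [Algebra (ZMod 2) F] (C : Finset (F × F × F)) : Prop :=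
  ∃ (α : F) (A : AddSubgroup F), Algebra.trace (ZMod 2) F α = 1 ∧ Nat.card A = 8 ∧
    ∃ (σ : F ≃+* F) (M : Matrix (Fin 3) (Fin 3) F), M.det ≠ 0 ∧
      coll σ M '' arc (C : Set (F × F × F)) = arc {c | c.1 = α ∧ c.2.1 = 1 ∧ c.2.2 ∈ A ∧ c.2.2 ≠ 0}

lemma coll_refl_one : coll (RingEquiv.refl F) 1 = id := by
  funext v; simp [coll]

lemma coll_comp (σ τ : F ≃+* F) (M N : Matrix (Fin 3) (Fin 3) F) :
    coll (τ.trans σ) (M * N.map σ) = coll σ M ∘ coll τ N := by
  funext v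
  simp only [coll, Function.comp_apply, ← Matrix.mulVec_mulVec]
  congr 1
  funext i
  simp [Matrix.mulVec, dotProduct, map_sum]

lemma det_map_ne (σ : F ≃+* F) {M : Matrix (Fin 3) (Fin 3) F} (h : M.det ≠ 0) :
    (M.map σ).det ≠ 0 := by
  have := RingHom.map_det (σ : F →+* F) M
  rw [RingHom.mapMatrix_apply] at this
  change σ M.det = (M.map σ).det at this
  rw [← this]
  simpa using h

lemma coll_inv (σ : F ≃+* F) {M : Matrix (Fin 3) (Fin 3) F} (h : M.det ≠ 0) :
    coll σ.symm (M⁻¹.map σ.symm) ∘ coll σ M = id := by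
  rw [← coll_comp, ← Matrix.map_mul, Matrix.nonsing_inv_mul _ (Ne.isUnit h)]
  funext v; simp [coll]

/-- The group of permutations of the conics of `C` induced by collineations stabilising the arc. -/
def induced (C : Finset (F × F × F)) : Subgroup (Equiv.Perm C) where
  carrier := {π | ∃ (σ : F ≃+* F) (M : Matrix (Fin 3) (Fin 3) F), M.det ≠ 0 ∧
    coll σ M '' arc (C : Set (F × F × F)) = arc (C : Set (F × F × F)) ∧
    ∀ c : C, coll σ M '' conic (c : F × F × F) = conic (π c : F × F × F)}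
  one_mem' := ⟨RingEquiv.refl F, 1, by simp, by simp [coll_refl_one], by simp [coll_refl_one]⟩
  mul_mem' := by
    rintro π ρ ⟨σ, M, hM, h1, h2⟩ ⟨τ, N, hN, h3, h4⟩
    refine ⟨τ.trans σ, M * N.map σ, ?_, ?_, fun c => ?_⟩
    · rw [Matrix.det_mul]; exact mul_ne_zero hM (det_map_ne σ hN)
    · rw [coll_comp, Set.image_comp, h3, h1]
    · rw [coll_comp, Set.image_comp, h4, h2]; rfl
  inv_mem' := by
    rintro π ⟨σ, M, hM, h1, h2⟩
    refine ⟨σ.symm, M⁻¹.map σ.symm, ?_, ?_, fun c => ?_⟩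
    · refine det_map_ne _ ?_
      rw [Matrix.det_nonsing_inv]; simpa using hM
    · conv_lhs => rw [← h1]
      rw [← Set.image_comp, coll_inv σ hM, Set.image_id]
    · have := h2 (π⁻¹ c)
      rw [show π (π⁻¹ c) = c by simp] at this
      rw [← this, ← Set.image_comp, coll_inv σ hM, Set.image_id]

end Pool.Agent.MP_df3b73_co.H70
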