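import Pool.Agent.MP_df3b73_co.H70.Upper

/-!
A proper arc with induced group of order 7 over every field containing a root of `x^7 + x + 1`.
-/

set_option autoImplicit false
set_option linter.unusedSectionVars false

namespace Pool.Agent.MP_df3b73_co.H70

variable {F : Type} [Field F] [CharP F 2] [Finite F] [Algebra (ZMod 2) F]

open Classical in
/-- the nonzero roots of `x^8 + x^2 + x` -/
noncomputable def rts (F : Type) [Field F] [Finite F] : Finset F :=
  (Set.toFinite {l : F | l ^ 7 + l + 1 = 0}).toFinset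

lemma mem_rts {l : F} : l ∈ rts F ↔ l ^ 7 + l + 1 = 0 := by simp [rts]

lemma rts_ne {l : F} (h : l ∈ rts F) : l ≠ 0 := by
  rintro rfl
  simp [mem_rts] at h

lemma rts_add {l m : F} (hl : l ∈ rts F) (hm : m ∈ rts F) (h : l ≠ m) : l + m ∈ rts F := by
  rw [mem_rts] at *
  have : l + m ≠ 0 := fun h0 => h (by grind)
  apply mul_left_cancel₀ this
  grind

lemma rts_sq {l : F} (hl : l ∈ rts F) : l ^ 2 ∈ rts F := by
  rw [mem_rts] at *
  grind

lemma rts_card {θ : F} (hθ : θ ^ 7 + θ + 1 = 0) : (rts F).card = 7 := by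
  classical
  apply le_antisymm
  · have hne : (Polynomial.X ^ 7 + Polynomial.X + 1 : Polynomial F) ≠ 0 := by
      intro h
      have := congrArg (Polynomial.eval 0) h
      simp at this
    have hsub : (rts F).val ⊆ (Polynomial.X ^ 7 + Polynomial.X + 1 : Polynomial F).roots := by
      intro l hl
      rw [Polynomial.mem_roots hne]
      simpa [mem_rts] using hl
    refine (Polynomial.card_le_degree_of_subset_roots hsub).trans ?_
    compute_degree
  · have h0 : θ ≠ 0 := rts_ne (mem_rts.2 hθ)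
    have hsub : ({θ, θ ^ 2, θ ^ 4, θ ^ 8, θ ^ 16, θ ^ 32, θ ^ 64} : Finset F) ⊆ rts F := by
      intro l hl
      rw [mem_rts]
      simp only [Finset.mem_insert, Finset.mem_singleton] at hl
      rcases hl with rfl | rfl | rfl | rfl | rfl | rfl | rfl <;> grind
    refine le_trans (le_of_eq ?_) (Finset.card_le_card hsub)
    symm
    rw [Finset.card_insert_of_notMem, Finset.card_insert_of_notMem, Finset.card_insert_of_notMem,
      Finset.card_insert_of_notMem, Finset.card_insert_of_notMem, Finset.card_insert_of_notMem,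
      Finset.card_singleton] <;>
    simp only [Finset.mem_insert, Finset.mem_singleton, not_or] <;>
    grind

open Classical in
/-- the closed set `F_{a + λ³, 1, λ}` -/
noncomputable def ex (a : F) : Finset (F × F × F) := (rts F).image fun l => (a + l ^ 3, 1, l)

lemma mem_ex {a : F} {c : F × F × F} : c ∈ ex a ↔ ∃ l ∈ rts F, (a + l ^ 3, 1, l) = c := by
  classical
  simp only [ex, Finset.mem_image]

lemma ex_closed {θ a : F} (hθ : θ ^ 7 + θ + 1 = 0) (ha : Algebra.trace (ZMod 2) F a = 1) :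
    ClosedSeven (ex a) := by
  classical
  refine ⟨?_, ?_, ?_⟩
  · rw [ex, Finset.card_image_of_injective _ (fun l m h => congrArg (fun c => c.2.2) h),
      rts_card hθ]
  · intro c hc
    obtain ⟨l, hl, rfl⟩ := mem_ex.1 hc
    refine ⟨?_, rts_ne hl⟩
    have e : l ^ 3 = (l ^ 6 + l ^ 5 + l ^ 4 + l) ^ 2 + (l ^ 6 + l ^ 5 + l ^ 4 + l) := by
      rw [mem_rts] at hl; grind
    simp only [mul_one]
    rw [map_add, ha, e, trace_sq_add, add_zero]
  · intro c hc c' hc' hne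
    obtain ⟨l, hl, rfl⟩ := mem_ex.1 hc
    obtain ⟨m, hm, rfl⟩ := mem_ex.1 hc'
    have hlm : l ≠ m := fun h => hne (by rw [h])
    have h0 : l + m ≠ 0 := fun h0 => hlm (by grind)
    refine ⟨hlm, mem_ex.2 ⟨l + m, rts_add hl hm hlm, ?_⟩⟩
    simp only [oplus, Prod.mk.injEq, and_true]
    constructor
    · rw [eq_div_iff h0]; grind
    · rw [eq_div_iff h0]; ring

lemma elim3 (N K E s x y z : F) (h1 : N + K * x = E * (s + x ^ 3)) (h2 : N + K * y = E * (s + y ^ 3))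
    (h3 : N + K * z = E * (s + z ^ 3)) : E * ((x + y) * (x + z) * (y + z) * (x + y + z)) = 0 := by
  have e : (y + z) * (N + K * x) + (x + z) * (N + K * y) + (x + y) * (N + K * z) = 0 := by
    clear h1 h2 h3; grind
  rw [h1, h2, h3] at e
  rw [← e]
  clear h1 h2 h3 e
  grind

lemma elim4 (x : F) (hx : x ^ 7 + x + 1 = 0) :
    (x + x ^ 2) * (x + x ^ 4) * (x ^ 2 + x ^ 4) * (x + x ^ 2 + x ^ 4) ≠ 0 := by
  refine mul_ne_zero (mul_ne_zero (mul_ne_zero ?_ ?_) ?_) ?_ <;> grind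

lemma ex_proper (hF : 32 ≤ Nat.card F) {θ : F} (a : F) (hθ : θ ^ 7 + θ + 1 = 0) :
    ¬ Denniston (ex a) := by
  classical
  rintro ⟨α, A, -, hA, σ, M, hM, himg⟩
  set D : Finset (F × F × F) :=
    (((Set.toFinite (A : Set F)).toFinset).erase 0).image fun l => (α, 1, l) with hD
  have hDset : {c : F × F × F | c.1 = α ∧ c.2.1 = 1 ∧ c.2.2 ∈ A ∧ c.2.2 ≠ 0} = (D : Set _) := by
    ext ⟨x, y, z⟩
    simp only [hD, Set.mem_ofPred_eq, Finset.coe_image, Set.mem_image,
      Finset.mem_erase, Set.Finite.mem_toFinset, SetLike.mem_coe, Prod.mk.injEq]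
    constructor
    · rintro ⟨rfl, rfl, h1, h2⟩
      exact ⟨z, ⟨h2, h1⟩, rfl, rfl, rfl⟩
    · rintro ⟨l, ⟨h1, h2⟩, rfl, rfl, rfl⟩
      exact ⟨rfl, rfl, h2, h1⟩
  have hDcard : D.card ≤ 7 := by
    refine Finset.card_image_le.trans ?_
    rw [Finset.card_erase_of_mem (by simp), ← Set.ncard_eq_toFinset_card _ (Set.toFinite _),
      ← Nat.card_coe_set_eq]
    change Nat.card A - 1 ≤ 7
    omega
  rw [hDset] at himg
  have key : ∀ l ∈ rts F, ∃ μ : F, Carries σ M (a + l ^ 3, 1, l) (α, 1, μ) := by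
    intro l hl
    obtain ⟨c', hc', hcar⟩ := carries_of_subset hF σ M hM (a + l ^ 3, 1, l) (rts_ne hl) D hDcard (by
      rw [← himg]
      refine Set.image_mono fun v hv => Or.inr ?_
      simp only [Set.mem_iUnion, Finset.mem_coe, exists_prop]
      exact ⟨_, mem_ex.2 ⟨l, hl, rfl⟩, hv⟩)
    obtain ⟨μ, -, rfl⟩ := Finset.mem_image.1 hc'
    exact ⟨μ, hcar⟩
  have hθ1 := mem_rts.2 hθ
  obtain ⟨μ1, c1⟩ := key θ hθ1
  obtain ⟨μ2, c2⟩ := key _ (rts_sq hθ1)
  obtain ⟨μ3, c3⟩ := key _ (rts_sq (rts_sq hθ1))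
  obtain ⟨hΔ, h22, h02, h12⟩ := c1.det hM
  have x1 := c1.xx
  have x2 := c2.xx
  have x3 := c3.xx
  have z1 := c1.zz
  have z2 := c2.zz
  have z3 := c3.zz
  have hx : σ θ ^ 7 + σ θ + 1 = 0 := by simpa using congrArg σ hθ
  simp only [map_add, map_pow, h02, h12] at x1 x2 x3 z1 z2 z3
  generalize M 0 0 * M 1 1 + M 0 1 * M 1 0 = Δ at *
  generalize σ θ = x at *
  have e : Δ * M 2 2 ^ 2 * ((x + x ^ 2) * (x + x ^ 4) * (x ^ 2 + x ^ 4) * (x + x ^ 2 + x ^ 4)) = 0 :=
    elim3 ((α * M 0 0 ^ 2 + M 0 0 * M 1 0 + M 1 0 ^ 2) * M 2 2 ^ 2) (Δ * M 2 0 ^ 2)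
      (Δ * M 2 2 ^ 2) (σ a) x (x ^ 2) (x ^ 4)
      (by linear_combination M 2 2 ^ 2 * x1 - M 2 0 ^ 2 * z1)
      (by linear_combination M 2 2 ^ 2 * x2 - M 2 0 ^ 2 * z2)
      (by linear_combination M 2 2 ^ 2 * x3 - M 2 0 ^ 2 * z3)
  have e2 : (x + x ^ 2) * (x + x ^ 4) * (x ^ 2 + x ^ 4) * (x + x ^ 2 + x ^ 4) ≠ 0 := by
    exact elim4 x hx
  exact mul_ne_zero (mul_ne_zero hΔ (pow_ne_zero 2 h22)) e2 e

lemma ex_seven {θ a : F} (hθ : θ ^ 7 + θ + 1 = 0) (ha : Algebra.trace (ZMod 2) F a = 1) :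
    7 ∣ Nat.card (induced (ex a)) := by
  classical
  have hC := ex_closed hθ ha
  have hmem : ∀ c : ex a, (c : F × F × F).2.2 ∈ rts F ∧
      (c : F × F × F).1 = a + (c : F × F × F).2.2 ^ 3 ∧ (c : F × F × F).2.1 = 1 := by
    rintro ⟨c, hc⟩
    obtain ⟨l, hl, rfl⟩ := mem_ex.1 hc
    exact ⟨hl, rfl, rfl⟩
  let f : ex a → ex a := fun c => ⟨(a + ((c : F × F × F).2.2 ^ 2) ^ 3, 1, (c : F × F × F).2.2 ^ 2),
    mem_ex.2 ⟨_, rts_sq (hmem c).1, rfl⟩⟩
  have hf : Function.Injective f := by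
    intro c c' h
    have h1 : (c : F × F × F).2.2 ^ 2 = (c' : F × F × F).2.2 ^ 2 :=
      congrArg (fun c : ex a => (c : F × F × F).2.2) h
    exact Subtype.ext (hC.inj c.2 c'.2 ((frobenius F 2).injective h1))
  let π : Equiv.Perm (ex a) := Equiv.ofBijective f (Finite.injective_iff_bijective.1 hf)
  have hπ : ∀ c, (π c : F × F × F)
      = (a + ((c : F × F × F).2.2 ^ 2) ^ 3, 1, (c : F × F × F).2.2 ^ 2) := fun c => rfl
  have hdet : (!![1, 0, 0; a, 1, 0; 0, 0, 1] : Matrix (Fin 3) (Fin 3) F).det ≠ 0 := by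
    rw [Matrix.det_fin_three]; simp
  have e0 : ∀ v, coll (frobeniusEquiv F 2) !![1, 0, 0; a, 1, 0; 0, 0, 1] v 0 = v 0 ^ 2 := by
    intro v; simp [coll_apply, frobenius_def]
  have e1 : ∀ v, coll (frobeniusEquiv F 2) !![1, 0, 0; a, 1, 0; 0, 0, 1] v 1
      = a * v 0 ^ 2 + v 1 ^ 2 := by
    intro v; simp [coll_apply, frobenius_def]
  have e2 : ∀ v, coll (frobeniusEquiv F 2) !![1, 0, 0; a, 1, 0; 0, 0, 1] v 2 = v 2 ^ 2 := by
    intro v; simp [coll_apply, frobenius_def]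
  have hconic : ∀ (c : ex a) (v : Fin 3 → F), v ∈ conic (c : F × F × F) ↔
      coll (frobeniusEquiv F 2) !![1, 0, 0; a, 1, 0; 0, 0, 1] v ∈ conic (π c : F × F × F) := by
    intro c v
    simp only [conic, Set.mem_ofPred_eq, coll_ne_zero _ hdet, e0, e1, e2, hπ, (hmem c).2.1,
      (hmem c).2.2]
    refine and_congr Iff.rfl ?_
    rw [← pow_eq_zero_iff (two_ne_zero)]
    refine Eq.congr_left ?_
    grind
  have hin : π ∈ induced (ex a) := by
    refine ⟨frobeniusEquiv F 2, _, hdet, image_eq_of_iff _ hdet fun v => ?_,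
      fun c => image_eq_of_iff _ hdet (hconic c)⟩
    simp only [arc, Set.mem_union, Set.mem_ofPred_eq, Set.mem_iUnion, coll_ne_zero _ hdet,
      e0, e1, Finset.mem_coe, exists_prop]
    refine or_congr (and_congr Iff.rfl ?_) ⟨?_, ?_⟩
    · constructor
      · rintro ⟨h1, h2⟩; simp [h1, h2]
      · rintro ⟨h1, h2⟩
        have h3 : v 0 = 0 := by simpa using h1
        exact ⟨h3, by simpa [h3] using h2⟩
    · rintro ⟨c, hc, h⟩
      exact ⟨_, (π ⟨c, hc⟩).2, (hconic ⟨c, hc⟩ v).1 h⟩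
    · rintro ⟨c, hc, h⟩
      refine ⟨_, (π.symm ⟨c, hc⟩).2, (hconic _ v).2 ?_⟩
      rw [π.apply_symm_apply]
      exact h
  have hit : ∀ (n : ℕ) (c : ex a),
      ((π ^ n) c : F × F × F).2.2 = (c : F × F × F).2.2 ^ 2 ^ n := by
    intro n
    induction n with
    | zero => intro c; simp
    | succ n ih =>
      intro c
      rw [pow_succ', Equiv.Perm.mul_apply, hπ, ih, pow_succ 2 n, pow_mul]
  have h7 : π ^ 7 = 1 := by
    ext1 c
    apply Subtype.ext
    refine hC.inj ((π ^ 7) c).2 c.2 ?_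
    rw [hit]
    have := mem_rts.1 (hmem c).1
    change _ = (c : F × F × F).2.2
    grind
  have h1 : π ≠ 1 := by
    intro h
    have h2 := hit 1 ⟨_, mem_ex.2 ⟨θ, mem_rts.2 hθ, rfl⟩⟩
    rw [h] at h2
    simp only [Equiv.Perm.coe_one, id_eq, pow_one] at h2
    grind
  have : Fact (Nat.Prime 7) := ⟨by norm_num⟩
  have ho : orderOf (⟨π, hin⟩ : induced (ex a)) = 7 := by
    rw [← Subgroup.orderOf_coe]
    exact orderOf_eq_prime h7 h1
  rw [← ho]
  exact orderOf_dvd_natCard _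

lemma exists_root (h : ℕ) (hh : h ≠ 0) (h7 : 7 ∣ h) :
    ∃ θ : GaloisField 2 h, θ ^ 7 + θ + 1 = 0 := by
  classical
  obtain ⟨φ⟩ : Nonempty (GaloisField 2 7 →ₐ[ZMod 2] GaloisField 2 h) :=
    FiniteField.nonempty_algHom_of_finrank_dvd (by
      rw [GaloisField.finrank 2 (by norm_num), GaloisField.finrank 2 hh]; exact h7)
  have := Fintype.ofFinite (GaloisField 2 7)
  have hcard : Fintype.card (GaloisField 2 7) = 128 := by
    rw [← Nat.card_eq_fintype_card, GaloisField.card 2 7 (by norm_num)]; norm_num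
  obtain ⟨w, hw⟩ : ∃ w : GaloisField 2 7, w ^ 16 + w ^ 4 + w ^ 2 + w ≠ 0 := by
    by_contra hcon
    push Not at hcon
    have hz : (Polynomial.X ^ 16 + Polynomial.X ^ 4 + Polynomial.X ^ 2 + Polynomial.X :
        Polynomial (GaloisField 2 7)) = 0 := by
      refine Polynomial.eq_zero_of_natDegree_lt_card_of_eval_eq_zero' _ Finset.univ
        (fun w _ => by simpa using hcon w) ?_
      rw [Finset.card_univ, hcard]
      refine lt_of_le_of_lt (b := 16) ?_ (by norm_num)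
      compute_degree
    have := congrArg (fun p => Polynomial.coeff p 1) hz
    simp [Polynomial.coeff_X_pow] at this
  have hpow : w ^ 128 = w := by rw [← hcard]; exact FiniteField.pow_card w
  have hroot : (w ^ 16 + w ^ 4 + w ^ 2 + w) ^ 7 + (w ^ 16 + w ^ 4 + w ^ 2 + w) + 1 = 0 := by
    apply mul_left_cancel₀ hw
    have e : (w ^ 16 + w ^ 4 + w ^ 2 + w) *
        ((w ^ 16 + w ^ 4 + w ^ 2 + w) ^ 7 + (w ^ 16 + w ^ 4 + w ^ 2 + w) + 1) = w ^ 128 + w := by
      clear hpow hw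
      grind
    rw [e, hpow, mul_zero, CharTwo.add_self_eq_zero]
  exact ⟨φ (w ^ 16 + w ^ 4 + w ^ 2 + w), by simpa using congrArg φ hroot⟩

end Pool.Agent.MP_df3b73_co.H70
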