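import Pool.Agent.MP_df3b73_co.H70.Transport

/-!
Structure of a closed set of 7 conics: `α = a0 + a1 λ + a2 λ³`, `β = b0 + b1 λ + b2 λ³` on an
additive group of order 8.
-/

set_option autoImplicit false
set_option linter.unusedSectionVars false

namespace Pool.Agent.MP_df3b73_co.H70

variable {F : Type} [Field F] [CharP F 2] [Finite F] [Algebra (ZMod 2) F]

lemma trace_sq (x : F) : Algebra.trace (ZMod 2) F (x ^ 2) = Algebra.trace (ZMod 2) F x := by
  have := Algebra.trace_eq_of_algEquiv (FiniteField.frobeniusAlgEquivOfAlgebraic (ZMod 2) F) x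
  rw [FiniteField.coe_frobeniusAlgEquivOfAlgebraic, ZMod.card] at this
  exact this

lemma trace_sq_add (x : F) : Algebra.trace (ZMod 2) F (x ^ 2 + x) = 0 := by
  rw [map_add, trace_sq, CharTwo.add_self_eq_zero]

lemma finrank_three (S : Submodule (ZMod 2) F) (hS : Nat.card S = 8) :
    Module.finrank (ZMod 2) S = 3 := by
  have h := Module.natCard_eq_pow_finrank (K := ZMod 2) (V := S)
  rw [hS, Nat.card_zmod] at h
  exact (Nat.pow_right_injective (le_refl 2) (show 2 ^ 3 = 2 ^ _ from h)).symm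

lemma interp (S : Submodule (ZMod 2) F) (hS : Nat.card S = 8) (f : S →+ F) :
    ∃ a0 a1 a2 : F, ∀ x : S, f x = a0 * x + a1 * (x : F) ^ 2 + a2 * (x : F) ^ 4 := by
  classical
  let e := Module.finBasisOfFinrankEq (ZMod 2) S (finrank_three S hS)
  let P : (Fin 3 → F) → S →+ F := fun a =>
    { toFun := fun x => a 0 * x + a 1 * (x : F) ^ 2 + a 2 * (x : F) ^ 4
      map_zero' := by simp
      map_add' := fun x y => by
        simp only [Submodule.coe_add]; grind }
  have hext : ∀ g g' : S →+ F, (∀ i, g (e i) = g' (e i)) → ∀ x, g x = g' x := by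
    intro g g' h x
    have : g.toZModLinearMap 2 = g'.toZModLinearMap 2 := e.ext h
    exact LinearMap.congr_fun this x
  have hinj : Function.Injective fun (a : Fin 3 → F) (i : Fin 3) => P a (e i) := by
    intro a b hab
    have h1 := hext (P a) (P b) (fun i => congrFun hab i)
    have hfin : (S : Set F).Finite := Set.toFinite _
    have hcard : hfin.toFinset.card = 8 := by
      rw [← Set.ncard_eq_toFinset_card _ hfin, ← Nat.card_coe_set_eq]; exact hS
    have key := poly_zero 0 (a 0 - b 0) (a 1 - b 1) 0 (a 2 - b 2) hfin.toFinset (by omega) (by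
      intro s hs
      have := h1 ⟨s, by simpa using hs⟩
      simp only [P, AddMonoidHom.coe_mk, ZeroHom.coe_mk] at this
      linear_combination this)
    funext i
    fin_cases i
    · exact sub_eq_zero.1 key.2.1
    · exact sub_eq_zero.1 key.2.2.1
    · exact sub_eq_zero.1 key.2.2.2.2
  obtain ⟨a, ha⟩ := Finite.injective_iff_surjective.1 hinj (fun i => f (e i))
  exact ⟨a 0, a 1, a 2, fun x => (hext (P a) f (fun i => congrFun ha i) x).symm⟩

omit [CharP F 2] [Finite F] in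
lemma ClosedSeven.inj {C : Finset (F × F × F)} (hC : ClosedSeven C) {c c' : F × F × F}
    (hc : c ∈ C) (hc' : c' ∈ C) (h : c.2.2 = c'.2.2) : c = c' := by
  by_contra hne
  exact (hC.2.2 c hc c' hc' hne).1 h

lemma ClosedSeven.space {C : Finset (F × F × F)} (hC : ClosedSeven C) :
    ∃ S : Submodule (ZMod 2) F, Nat.card S = 8 ∧ ∀ l, l ∈ S ↔ l = 0 ∨ ∃ c ∈ C, c.2.2 = l := by
  classical
  let A : AddSubgroup F :=
    { carrier := {l | l = 0 ∨ ∃ c ∈ C, c.2.2 = l}
      zero_mem' := Or.inl rfl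
      add_mem' := by
        rintro x y (rfl | ⟨c, hc, rfl⟩) (rfl | ⟨c', hc', rfl⟩)
        · exact Or.inl (add_zero 0)
        · exact Or.inr ⟨c', hc', (zero_add _).symm⟩
        · exact Or.inr ⟨c, hc, (add_zero _).symm⟩
        · by_cases h : c = c'
          · subst h; exact Or.inl (CharTwo.add_self_eq_zero _)
          · exact Or.inr ⟨oplus c c', (hC.2.2 c hc c' hc' h).2, rfl⟩
      neg_mem' := by
        intro x hx
        rwa [CharTwo.neg_eq] }
  refine ⟨AddSubgroup.toZModSubmodule 2 A, ?_, fun l => Iff.rfl⟩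
  have : ((AddSubgroup.toZModSubmodule 2 A : Submodule (ZMod 2) F) : Set F)
      = (insert 0 (C.image fun c => c.2.2) : Finset F) := by
    ext l
    simp only [Finset.coe_insert, Finset.coe_image, Set.mem_insert_iff, Set.mem_image,
      Finset.mem_coe]
    rfl
  change Nat.card ((AddSubgroup.toZModSubmodule 2 A : Submodule (ZMod 2) F) : Set F) = 8
  rw [this, Nat.card_coe_set_eq, Set.ncard_coe_finset, Finset.card_insert_of_notMem,
    Finset.card_image_of_injOn (fun c hc c' hc' h => hC.inj hc hc' h), hC.1]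
  intro h
  obtain ⟨c, hc, h0⟩ := Finset.mem_image.1 h
  exact (hC.2.1 c hc).2 h0

lemma ClosedSeven.coeff {C : Finset (F × F × F)} (hC : ClosedSeven C) (w : F × F × F → F)
    (hw : ∀ c c' : F × F × F, w (oplus c c') = (w c * c.2.2 + w c' * c'.2.2) / (c.2.2 + c'.2.2)) :
    ∃ a0 a1 a2 : F, ∀ c ∈ C, w c = a0 + a1 * c.2.2 + a2 * c.2.2 ^ 3 := by
  classical
  obtain ⟨S, hS, hmem⟩ := hC.space
  set g : F → F := fun x => ∑ c ∈ C.filter (fun c => c.2.2 = x), w c * c.2.2 with hg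
  have hg0 : g 0 = 0 := by
    refine Finset.sum_eq_zero fun c hc => ?_
    rw [(Finset.mem_filter.1 hc).2, mul_zero]
  have hgc : ∀ c ∈ C, g c.2.2 = w c * c.2.2 := by
    intro c hc
    have : C.filter (fun c' => c'.2.2 = c.2.2) = {c} := by
      ext c'
      simp only [Finset.mem_filter, Finset.mem_singleton]
      exact ⟨fun h => hC.inj h.1 hc h.2, fun h => by rw [h]; exact ⟨hc, rfl⟩⟩
    simp only [hg, this, Finset.sum_singleton]
  let f : S →+ F :=
    { toFun := fun x => g x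
      map_zero' := hg0
      map_add' := by
        rintro ⟨x, hx⟩ ⟨y, hy⟩
        change g (x + y) = g x + g y
        rcases (hmem x).1 hx with rfl | ⟨c, hc, rfl⟩
        · rw [hg0, zero_add, zero_add]
        rcases (hmem y).1 hy with rfl | ⟨c', hc', rfl⟩
        · rw [hg0, add_zero, add_zero]
        by_cases h : c = c'
        · subst h
          rw [CharTwo.add_self_eq_zero, CharTwo.add_self_eq_zero, hg0]
        · obtain ⟨h1, h2⟩ := hC.2.2 c hc c' hc' h
          have h3 := hgc _ h2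
          have h4 : c.2.2 + c'.2.2 ≠ 0 := fun h0 => h1 (by grind)
          rw [hw] at h3
          change g (c.2.2 + c'.2.2) = _ / _ * (c.2.2 + c'.2.2) at h3
          rw [h3, hgc c hc, hgc c' hc', div_mul_cancel₀ _ h4] }
  obtain ⟨a0, a1, a2, ha⟩ := interp S hS f
  refine ⟨a0, a1, a2, fun c hc => ?_⟩
  have h := ha ⟨c.2.2, (hmem _).2 (Or.inr ⟨c, hc, rfl⟩)⟩
  change g c.2.2 = a0 * c.2.2 + a1 * c.2.2 ^ 2 + a2 * c.2.2 ^ 4 at h
  rw [hgc c hc] at h
  apply mul_right_cancel₀ (hC.2.1 c hc).2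
  linear_combination h

lemma ClosedSeven.trace_const {C : Finset (F × F × F)} (hC : ClosedSeven C)
    {a0 a1 a2 b0 b1 b2 : F} (ha : ∀ c ∈ C, c.1 = a0 + a1 * c.2.2 + a2 * c.2.2 ^ 3)
    (hb : ∀ c ∈ C, c.2.1 = b0 + b1 * c.2.2 + b2 * c.2.2 ^ 3) :
    Algebra.trace (ZMod 2) F (a0 * b0) = 1 := by
  classical
  obtain ⟨S, hS, hmem⟩ := hC.space
  let e := Module.finBasisOfFinrankEq (ZMod 2) S (finrank_three S hS)
  have key : ∀ u : Fin 3 → ZMod 2, u ≠ 0 → ∀ l : F, l = ((∑ i, u i • e i : S) : F) →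
      Algebra.trace (ZMod 2) F ((a0 + a1 * l + a2 * l ^ 3) * (b0 + b1 * l + b2 * l ^ 3)) = 1 := by
    intro u hu l hl
    have hne : l ≠ 0 := by
      intro h0
      apply hu
      have : (∑ i, u i • e i : S) = 0 := Subtype.ext (by rw [← hl, h0]; rfl)
      funext i
      exact Fintype.linearIndependent_iff.1 e.linearIndependent u this i
    rcases (hmem l).1 (hl ▸ (∑ i, u i • e i : S).2) with h | ⟨c, hc, rfl⟩
    · exact absurd h hne
    · rw [← ha c hc, ← hb c hc]; exact (hC.2.1 c hc).1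
  obtain ⟨x, hx⟩ : ∃ x : F, x = (e 0 : S) := ⟨_, rfl⟩
  obtain ⟨y, hy⟩ : ∃ y : F, y = (e 1 : S) := ⟨_, rfl⟩
  obtain ⟨z, hz⟩ : ∃ z : F, z = (e 2 : S) := ⟨_, rfl⟩
  have h1 := key ![1, 0, 0] (by decide) x (by simp [Fin.sum_univ_three, hx])
  have h2 := key ![0, 1, 0] (by decide) y (by simp [Fin.sum_univ_three, hy])
  have h3 := key ![0, 0, 1] (by decide) z (by simp [Fin.sum_univ_three, hz])
  have h4 := key ![1, 1, 0] (by decide) (x + y) (by simp [Fin.sum_univ_three, hx, hy])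
  have h5 := key ![1, 0, 1] (by decide) (x + z) (by simp [Fin.sum_univ_three, hx, hz])
  have h6 := key ![0, 1, 1] (by decide) (y + z) (by simp [Fin.sum_univ_three, hy, hz])
  have h7 := key ![1, 1, 1] (by decide) (x + y + z) (by simp [Fin.sum_univ_three, hx, hy, hz])
  set q : F → F := fun l => (a0 + a1 * l + a2 * l ^ 3) * (b0 + b1 * l + b2 * l ^ 3) with hq
  have hsum : a0 * b0 = q x + q y + q z + q (x + y) + q (x + z) + q (y + z) + q (x + y + z) := by
    simp only [hq]; grind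
  rw [hsum]
  simp only [map_add, hq, h1, h2, h3, h4, h5, h6, h7]
  decide

lemma kappa_ne {a0 b0 a2 b2 : F} (h : Algebra.trace (ZMod 2) F (a0 * b0) = 1)
    (h2 : ¬ (a2 = 0 ∧ b2 = 0)) : a0 ^ 2 * b2 ^ 2 + a2 * b2 + b0 ^ 2 * a2 ^ 2 ≠ 0 := by
  intro hk
  by_cases hb : b2 = 0
  · have ha : a2 ≠ 0 := fun ha => h2 ⟨ha, hb⟩
    have : b0 = 0 := by simpa [hb, ha] using hk
    simp [this] at h
  · have e : (a0 * b0) ^ 2 = (b0 ^ 2 * a2 / b2) ^ 2 + b0 ^ 2 * a2 / b2 := by
      field_simp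
      grind
    have h3 := trace_sq_add (b0 ^ 2 * a2 / b2)
    rw [← e, trace_sq, h] at h3
    exact one_ne_zero h3

omit [CharP F 2] [Algebra (ZMod 2) F] in
lemma image_eq_of_iff (σ : F ≃+* F) {M : Matrix (Fin 3) (Fin 3) F} (hM : M.det ≠ 0)
    {s t : Set (Fin 3 → F)} (h : ∀ v, v ∈ s ↔ coll σ M v ∈ t) : coll σ M '' s = t := by
  have hinj : Function.Injective (coll σ M) :=
    Function.LeftInverse.injective (congrFun (coll_inv σ hM))
  have hsurj := Finite.injective_iff_surjective.1 hinj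
  ext w
  obtain ⟨v, rfl⟩ := hsurj w
  rw [hinj.mem_set_image, h]

omit [CharP F 2] [Algebra (ZMod 2) F] [Finite F] in
lemma coll_ne_zero (σ : F ≃+* F) {M : Matrix (Fin 3) (Fin 3) F} (hM : M.det ≠ 0) (v : Fin 3 → F) :
    coll σ M v ≠ 0 ↔ v ≠ 0 := by
  have hinj : Function.Injective (coll σ M) :=
    Function.LeftInverse.injective (congrFun (coll_inv σ hM))
  have h0 : coll σ M 0 = 0 := by
    funext i; simp [coll_apply]
  rw [← h0, hinj.ne_iff, h0]

lemma ClosedSeven.denniston {C : Finset (F × F × F)} (hC : ClosedSeven C)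
    {a0 a1 b0 b1 : F} (ha : ∀ c ∈ C, c.1 = a0 + a1 * c.2.2 + 0 * c.2.2 ^ 3)
    (hb : ∀ c ∈ C, c.2.1 = b0 + b1 * c.2.2 + 0 * c.2.2 ^ 3) : Denniston C := by
  obtain ⟨S, hS, hmem⟩ := hC.space
  have htr := hC.trace_const ha hb
  have hb0 : b0 ≠ 0 := by
    rintro rfl
    simp at htr
  obtain ⟨s, hs⟩ := exists_sq b0
  obtain ⟨u, hu⟩ := exists_sq a1
  obtain ⟨w, hw⟩ := exists_sq b1
  have hs0 : s ≠ 0 := by
    rintro rfl
    exact hb0 (by simpa using hs.symm)
  have hdet : (!![s⁻¹, 0, 0; 0, s, 0; u, w, 1] : Matrix (Fin 3) (Fin 3) F).det ≠ 0 := by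
    rw [Matrix.det_fin_three]; simp [hs0]
  refine ⟨a0 * b0, S.toAddSubgroup, htr, hS, RingEquiv.refl F, !![s⁻¹, 0, 0; 0, s, 0; u, w, 1],
    hdet, image_eq_of_iff _ hdet fun v => ?_⟩
  have e0 : coll (RingEquiv.refl F) !![s⁻¹, 0, 0; 0, s, 0; u, w, 1] v 0 = s⁻¹ * v 0 := by
    simp [coll_apply]
  have e1 : coll (RingEquiv.refl F) !![s⁻¹, 0, 0; 0, s, 0; u, w, 1] v 1 = s * v 1 := by
    simp [coll_apply]
  have e2 : coll (RingEquiv.refl F) !![s⁻¹, 0, 0; 0, s, 0; u, w, 1] v 2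
      = u * v 0 + w * v 1 + v 2 := by
    simp [coll_apply]
  have hform : ∀ l : F, a0 * b0 * (s⁻¹ * v 0) ^ 2 + s⁻¹ * v 0 * (s * v 1) + 1 * (s * v 1) ^ 2
      + l * (u * v 0 + w * v 1 + v 2) ^ 2
      = (a0 + a1 * l + 0 * l ^ 3) * v 0 ^ 2 + v 0 * v 1 + (b0 + b1 * l + 0 * l ^ 3) * v 1 ^ 2
        + l * v 2 ^ 2 := by
    intro l
    rw [← hs, ← hu, ← hw]
    field_simp
    grind
  simp only [arc, conic, Set.mem_union, Set.mem_ofPred_eq, Set.mem_iUnion, coll_ne_zero _ hdet,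
    e0, e1, e2, Finset.mem_coe, exists_prop]
  refine or_congr (by simp [hs0]) ⟨?_, ?_⟩
  · rintro ⟨c, hc, h1, h2⟩
    refine ⟨(a0 * b0, 1, c.2.2), ⟨rfl, rfl, (hmem _).2 (Or.inr ⟨c, hc, rfl⟩), (hC.2.1 c hc).2⟩,
      h1, ?_⟩
    rw [ha c hc, hb c hc] at h2
    exact (hform _).trans h2
  · rintro ⟨c', ⟨h1, h2, h3, h4⟩, h5, h6⟩
    rcases (hmem _).1 h3 with h | ⟨c, hc, h⟩
    · exact absurd h h4
    · refine ⟨c, hc, h5, ?_⟩
      rw [h1, h2, ← h] at h6
      rw [ha c hc, hb c hc]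
      exact (hform _).symm.trans h6

end Pool.Agent.MP_df3b73_co.H70
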