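import Pool.Agent.MP_df3b73_co.H70.Defs

/-!
Five points determine the conic; transport of a conic by a collineation.
-/

set_option autoImplicit false
open Polynomial

namespace Pool.Agent.MP_df3b73_co.H70

variable {F : Type} [Field F]

lemma poly_zero (c0 c1 c2 c3 c4 : F) (S : Finset F) (hS : 4 < S.card)
    (h : ∀ s ∈ S, c0 + c1 * s + c2 * s ^ 2 + c3 * s ^ 3 + c4 * s ^ 4 = 0) :
    c0 = 0 ∧ c1 = 0 ∧ c2 = 0 ∧ c3 = 0 ∧ c4 = 0 := by
  set p : F[X] := C c0 + C c1 * X + C c2 * X ^ 2 + C c3 * X ^ 3 + C c4 * X ^ 4 with hp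
  have hdeg : p.natDegree ≤ 4 := by rw [hp]; compute_degree
  have hz : p = 0 := by
    refine Polynomial.eq_zero_of_natDegree_lt_card_of_eval_eq_zero' p S ?_ (by omega)
    intro s hs
    simp [hp, h s hs]
  have hc : ∀ n, p.coeff n = 0 := fun n => by rw [hz]; simp
  have h0 := hc 0
  have h1 := hc 1
  have h2 := hc 2
  have h3 := hc 3
  have h4 := hc 4
  simp [hp, coeff_X, coeff_C, coeff_X_pow] at h0 h1 h2 h3 h4
  exact ⟨h0, h1, h2, h3, h4⟩

variable [CharP F 2]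

/-- A quadratic form vanishing at five affine points of the conic `(α, β, l)` is a multiple of it. -/
lemma five_point (α β l a b c d e f : F) (hl : l ≠ 0) (S : Finset F) (hS : 4 < S.card)
    (h : ∀ s ∈ S, ∃ z, α * s ^ 2 + s + β + l * z ^ 2 = 0 ∧
      a * s ^ 2 + b + c * z ^ 2 + d * s + e * (s * z) + f * z = 0) :
    e = 0 ∧ f = 0 ∧ a = d * α ∧ b = d * β ∧ c = d * l := by
  have key := poly_zero ((l * b + c * β) ^ 2 + l * f ^ 2 * β) (l * f ^ 2)
    ((l * d + c) ^ 2 + l * (e ^ 2 * β + f ^ 2 * α)) (l * e ^ 2)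
    ((l * a + c * α) ^ 2 + l * e ^ 2 * α) S hS (by
      intro s hs
      obtain ⟨z, h1, h2⟩ := h s hs
      grind)
  obtain ⟨k0, k1, k2, k3, k4⟩ := key
  have he : e = 0 := by simpa [hl] using k3
  have hf : f = 0 := by simpa [hl] using k1
  subst he hf
  have e0 : l * b + c * β = 0 := by simpa using k0
  have e2 : l * d + c = 0 := by simpa using k2
  have e4 : l * a + c * α = 0 := by simpa using k4
  have hc : c = d * l := by grind
  refine ⟨rfl, rfl, ?_, ?_, hc⟩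
  · apply mul_left_cancel₀ hl; grind
  · apply mul_left_cancel₀ hl; grind

/-- The coefficient identities saying that `M, σ` carry the form `c` to a multiple of `c'`. -/
structure Carries (σ : F ≃+* F) (M : Matrix (Fin 3) (Fin 3) F) (c c' : F × F × F) : Prop where
  xx : c'.1 * M 0 0 ^ 2 + M 0 0 * M 1 0 + c'.2.1 * M 1 0 ^ 2 + c'.2.2 * M 2 0 ^ 2
    = (M 0 0 * M 1 1 + M 0 1 * M 1 0) * σ c.1
  yy : c'.1 * M 0 1 ^ 2 + M 0 1 * M 1 1 + c'.2.1 * M 1 1 ^ 2 + c'.2.2 * M 2 1 ^ 2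
    = (M 0 0 * M 1 1 + M 0 1 * M 1 0) * σ c.2.1
  zz : c'.1 * M 0 2 ^ 2 + M 0 2 * M 1 2 + c'.2.1 * M 1 2 ^ 2 + c'.2.2 * M 2 2 ^ 2
    = (M 0 0 * M 1 1 + M 0 1 * M 1 0) * σ c.2.2
  xz : M 0 0 * M 1 2 + M 0 2 * M 1 0 = 0
  yz : M 0 1 * M 1 2 + M 0 2 * M 1 1 = 0

omit [CharP F 2] in
lemma coll_apply (σ : F ≃+* F) (M : Matrix (Fin 3) (Fin 3) F) (v : Fin 3 → F) (i : Fin 3) :
    coll σ M v i = M i 0 * σ (v 0) + M i 1 * σ (v 1) + M i 2 * σ (v 2) := by
  simp [coll, Matrix.mulVec, dotProduct, Fin.sum_univ_three]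

lemma transport (σ : F ≃+* F) (M : Matrix (Fin 3) (Fin 3) F) (c c' : F × F × F) (hc : c.2.2 ≠ 0)
    (S : Finset F) (hS : 4 < S.card)
    (h : ∀ s ∈ S, ∃ z, ![s, 1, z] ∈ conic c ∧ coll σ M ![s, 1, z] ∈ conic c') :
    Carries σ M c c' := by
  classical
  have key := five_point (σ c.1) (σ c.2.1) (σ c.2.2)
    (c'.1 * M 0 0 ^ 2 + M 0 0 * M 1 0 + c'.2.1 * M 1 0 ^ 2 + c'.2.2 * M 2 0 ^ 2)
    (c'.1 * M 0 1 ^ 2 + M 0 1 * M 1 1 + c'.2.1 * M 1 1 ^ 2 + c'.2.2 * M 2 1 ^ 2)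
    (c'.1 * M 0 2 ^ 2 + M 0 2 * M 1 2 + c'.2.1 * M 1 2 ^ 2 + c'.2.2 * M 2 2 ^ 2)
    (M 0 0 * M 1 1 + M 0 1 * M 1 0) (M 0 0 * M 1 2 + M 0 2 * M 1 0)
    (M 0 1 * M 1 2 + M 0 2 * M 1 1) (by simpa using hc) (S.image σ)
    (by rwa [Finset.card_image_of_injective _ σ.injective]) (by
      intro s' hs'
      obtain ⟨s, hs, rfl⟩ := Finset.mem_image.1 hs'
      obtain ⟨z, h1, h2⟩ := h s hs
      refine ⟨σ z, ?_, ?_⟩
      · have := congrArg σ h1.2
        simpa using this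
      · have := h2.2
        simp only [coll_apply, Matrix.cons_val_zero, Matrix.cons_val_one, Matrix.cons_val_two,
          Matrix.head_cons, Matrix.tail_cons, map_one] at this
        grind)
  obtain ⟨k1, k2, k3, k4, k5⟩ := key
  exact ⟨k3, k4, k5, k1, k2⟩

lemma Carries.det {σ : F ≃+* F} {M : Matrix (Fin 3) (Fin 3) F} {c c' : F × F × F}
    (h : Carries σ M c c') (hM : M.det ≠ 0) :
    M 0 0 * M 1 1 + M 0 1 * M 1 0 ≠ 0 ∧ M 2 2 ≠ 0 ∧ M 0 2 = 0 ∧ M 1 2 = 0 := by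
  have h1 := h.xz
  have h2 := h.yz
  have hd : M.det = M 2 2 * (M 0 0 * M 1 1 + M 0 1 * M 1 0) := by
    rw [Matrix.det_fin_three]; grind
  rw [hd] at hM
  have hD := right_ne_zero_of_mul hM
  refine ⟨hD, left_ne_zero_of_mul hM, ?_, ?_⟩
  · apply mul_left_cancel₀ hD; grind
  · apply mul_left_cancel₀ hD; grind

variable [Finite F]

lemma exists_sq (a : F) : ∃ z : F, z ^ 2 = a := by
  obtain ⟨z, hz⟩ := (surjective_frobenius F 2) a
  exact ⟨z, by simpa [frobenius_def] using hz⟩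

lemma exists_pt (c : F × F × F) (hc : c.2.2 ≠ 0) (s : F) : ∃ z, ![s, 1, z] ∈ conic c := by
  obtain ⟨z, hz⟩ := exists_sq ((c.1 * s ^ 2 + s + c.2.1) / c.2.2)
  refine ⟨z, ?_, ?_⟩
  · intro h
    have := congrFun h 1
    simp at this
  · simp only [Matrix.cons_val_zero, Matrix.cons_val_one, Matrix.cons_val_two,
      Matrix.head_cons, Matrix.tail_cons, hz]
    field_simp
    grind

lemma carries_of_image (hF : 4 < Nat.card F) (σ : F ≃+* F) (M : Matrix (Fin 3) (Fin 3) F)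
    (c c' : F × F × F) (hc : c.2.2 ≠ 0) (h : coll σ M '' conic c = conic c') :
    Carries σ M c c' := by
  have := Fintype.ofFinite F
  refine transport σ M c c' hc Finset.univ (by rwa [Finset.card_univ, ← Nat.card_eq_fintype_card])
    fun s _ => ?_
  obtain ⟨z, hz⟩ := exists_pt c hc s
  exact ⟨z, hz, h ▸ Set.mem_image_of_mem _ hz⟩

/-- Pigeonhole: a conic mapped into an arc with at most 7 conics is carried to one of them. -/
lemma carries_of_subset (hF : 32 ≤ Nat.card F) (σ : F ≃+* F) (M : Matrix (Fin 3) (Fin 3) F)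
    (hM : M.det ≠ 0) (c : F × F × F) (hc : c.2.2 ≠ 0) (D : Finset (F × F × F)) (hD : D.card ≤ 7)
    (h : coll σ M '' conic c ⊆ arc (D : Set (F × F × F))) : ∃ c' ∈ D, Carries σ M c c' := by
  classical
  have := Fintype.ofFinite F
  choose z hz using exists_pt c hc
  set bad : Finset F := Finset.univ.filter fun s =>
    coll σ M ![s, 1, z s] 0 = 0 ∧ coll σ M ![s, 1, z s] 1 = 0 with hbad
  have hbad1 : bad.card ≤ 1 := by
    rw [Finset.card_le_one]
    intro s hs t ht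
    rw [hbad, Finset.mem_filter] at hs ht
    obtain ⟨-, a1, a2⟩ := hs
    obtain ⟨-, b1, b2⟩ := ht
    simp only [coll_apply, Matrix.cons_val_zero, Matrix.cons_val_one, Matrix.cons_val_two,
      Matrix.head_cons, Matrix.tail_cons, map_one] at a1 a2 b1 b2
    by_contra hne
    have hne' : σ s - σ t ≠ 0 := sub_ne_zero.2 fun h => hne (σ.injective h)
    apply hM
    apply mul_left_cancel₀ hne'
    rw [Matrix.det_fin_three]
    grind
  have hgood : ∀ s ∈ Finset.univ \ bad, ∃ c' ∈ D, coll σ M ![s, 1, z s] ∈ conic c' := by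
    intro s hs
    have hs' : s ∉ bad := (Finset.mem_sdiff.1 hs).2
    rcases h (Set.mem_image_of_mem _ (hz s)) with h1 | h1
    · exact absurd (by rw [hbad, Finset.mem_filter]; exact ⟨Finset.mem_univ _, h1.2⟩) hs'
    · simpa using h1
  choose! g hg1 hg2 using hgood
  have hcard : D.card * 4 < (Finset.univ \ bad).card := by
    rw [Finset.card_sdiff_of_subset (Finset.subset_univ _), Finset.card_univ,
      ← Nat.card_eq_fintype_card]
    omega
  obtain ⟨c', hc', hfib⟩ := Finset.exists_lt_card_fiber_of_mul_lt_card_of_maps_to hg1 hcard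
  refine ⟨c', hc', transport σ M c c' hc _ hfib fun s hs => ?_⟩
  rw [Finset.mem_filter] at hs
  exact ⟨z s, hz s, hs.2 ▸ hg2 s hs.1⟩

end Pool.Agent.MP_df3b73_co.H70
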