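import Pool.Agent.MP_df3b73_co.H70.Structure

/-!
The induced group of a proper arc is cyclic, of order 1, 2, 3, 4 or 7, dividing the degree.
-/

set_option autoImplicit false
set_option linter.unusedSectionVars false

namespace Pool.Agent.MP_df3b73_co.H70

variable {F : Type} [Field F] [CharP F 2] [Finite F] [Algebra (ZMod 2) F]

lemma kappa_rel (a0 b0 a2 b2 a0' b0' a2' b2' m11 m12 m21 m22 T D : F)
    (hD : D = m11 * m22 + m12 * m21) (hD0 : D ≠ 0)
    (h1 : a0 * m11 ^ 2 + m11 * m21 + b0 * m21 ^ 2 = D * a0')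
    (h2 : a0 * m12 ^ 2 + m12 * m22 + b0 * m22 ^ 2 = D * b0')
    (h3 : T * (a2 * m11 ^ 2 + b2 * m21 ^ 2) = D * a2')
    (h4 : T * (a2 * m12 ^ 2 + b2 * m22 ^ 2) = D * b2') :
    T ^ 2 * (a0 ^ 2 * b2 ^ 2 + a2 * b2 + b0 ^ 2 * a2 ^ 2)
      = a0' ^ 2 * b2' ^ 2 + a2' * b2' + b0' ^ 2 * a2' ^ 2 := by
  have : D ^ 4 * (a0' ^ 2 * b2' ^ 2 + a2' * b2' + b0' ^ 2 * a2' ^ 2)
      = D ^ 4 * (T ^ 2 * (a0 ^ 2 * b2 ^ 2 + a2 * b2 + b0 ^ 2 * a2 ^ 2)) := by
    have e : D ^ 4 * (a0' ^ 2 * b2' ^ 2 + a2' * b2' + b0' ^ 2 * a2' ^ 2)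
        = (D * a0') ^ 2 * (D * b2') ^ 2 + D ^ 2 * (D * a2') * (D * b2')
          + (D * b0') ^ 2 * (D * a2') ^ 2 := by ring
    rw [e, ← h1, ← h2, ← h3, ← h4, hD]
    grind
  exact (mul_left_cancel₀ (pow_ne_zero 4 hD0) this).symm

lemma ClosedSeven.card_field {C : Finset (F × F × F)} (hC : ClosedSeven C) : 4 < Nat.card F := by
  obtain ⟨S, hS, -⟩ := hC.space
  have := Nat.card_le_card_of_injective (Subtype.val : S → F) Subtype.val_injective
  omega

lemma ClosedSeven.rel {C : Finset (F × F × F)} (hC : ClosedSeven C)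
    {a0 a1 a2 b0 b1 b2 : F} (ha : ∀ c ∈ C, c.1 = a0 + a1 * c.2.2 + a2 * c.2.2 ^ 3)
    (hb : ∀ c ∈ C, c.2.1 = b0 + b1 * c.2.2 + b2 * c.2.2 ^ 3) {π : Equiv.Perm C}
    (hπ : π ∈ induced C) :
    ∃ (σ : F ≃+* F) (t : F), t ≠ 0 ∧
      (∀ c : C, (π c : F × F × F).2.2 = t * σ (c : F × F × F).2.2) ∧
      t ^ 6 * (a0 ^ 2 * b2 ^ 2 + a2 * b2 + b0 ^ 2 * a2 ^ 2)
        = σ (a0 ^ 2 * b2 ^ 2 + a2 * b2 + b0 ^ 2 * a2 ^ 2) := by
  classical
  obtain ⟨σ, M, hM, -, h2⟩ := hπ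
  have hcar : ∀ c : C, Carries σ M c (π c) := fun c =>
    carries_of_image hC.card_field σ M _ _ (hC.2.1 c c.2).2 (h2 c)
  obtain ⟨c0, hc0⟩ : C.Nonempty := Finset.card_pos.1 (by rw [hC.1]; norm_num)
  obtain ⟨hD, h22, h02, h12⟩ := (hcar ⟨c0, hc0⟩).det hM
  set D := M 0 0 * M 1 1 + M 0 1 * M 1 0 with hDdef
  set t := D / M 2 2 ^ 2 with ht
  have hl : ∀ c : C, (π c : F × F × F).2.2 = t * σ (c : F × F × F).2.2 := by
    intro c
    have := (hcar c).zz
    rw [h02, h12, ← hDdef] at this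
    rw [ht]
    field_simp
    linear_combination this
  set S : Finset F := C.image fun c => σ c.2.2 with hS
  have hScard : 4 < S.card := by
    rw [hS, Finset.card_image_of_injOn (fun c hc c' hc' h => hC.inj hc hc' (σ.injective h)), hC.1]
    norm_num
  have k1 := poly_zero (a0 * M 0 0 ^ 2 + M 0 0 * M 1 0 + b0 * M 1 0 ^ 2 - D * σ a0)
    (t * (a1 * M 0 0 ^ 2 + b1 * M 1 0 ^ 2 + M 2 0 ^ 2) - D * σ a1) 0
    (t ^ 3 * (a2 * M 0 0 ^ 2 + b2 * M 1 0 ^ 2) - D * σ a2) 0 S hScard (by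
      intro s hs
      obtain ⟨c, hc, rfl⟩ := Finset.mem_image.1 hs
      have h := (hcar ⟨c, hc⟩).xx
      rw [ha _ (π ⟨c, hc⟩).2, hb _ (π ⟨c, hc⟩).2, hl, ← hDdef] at h
      simp only at h
      rw [ha c hc] at h
      simp only [map_add, map_mul, map_pow] at h
      linear_combination h)
  have k2 := poly_zero (a0 * M 0 1 ^ 2 + M 0 1 * M 1 1 + b0 * M 1 1 ^ 2 - D * σ b0)
    (t * (a1 * M 0 1 ^ 2 + b1 * M 1 1 ^ 2 + M 2 1 ^ 2) - D * σ b1) 0
    (t ^ 3 * (a2 * M 0 1 ^ 2 + b2 * M 1 1 ^ 2) - D * σ b2) 0 S hScard (by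
      intro s hs
      obtain ⟨c, hc, rfl⟩ := Finset.mem_image.1 hs
      have h := (hcar ⟨c, hc⟩).yy
      rw [ha _ (π ⟨c, hc⟩).2, hb _ (π ⟨c, hc⟩).2, hl, ← hDdef] at h
      simp only at h
      rw [hb c hc] at h
      simp only [map_add, map_mul, map_pow] at h
      linear_combination h)
  refine ⟨σ, t, div_ne_zero hD (pow_ne_zero 2 h22), hl, ?_⟩
  have := kappa_rel a0 b0 a2 b2 (σ a0) (σ b0) (σ a2) (σ b2) (M 0 0) (M 0 1) (M 1 0) (M 1 1) (t ^ 3) D
    hDdef hD (sub_eq_zero.1 k1.1) (sub_eq_zero.1 k2.1) (sub_eq_zero.1 k1.2.2.2.1)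
    (sub_eq_zero.1 k2.2.2.2.1)
  simp only [map_add, map_mul, map_pow]
  rw [← this]; ring

/-- pairs (field automorphism, permutation) related by a scalar -/
def pairs (C : Finset (F × F × F)) (k : F) : Subgroup ((F ≃ₐ[ZMod 2] F) × Equiv.Perm C) where
  carrier := {p | ∃ t : F, t ≠ 0 ∧
    (∀ c : C, (p.2 c : F × F × F).2.2 = t * p.1 (c : F × F × F).2.2) ∧ t ^ 6 * k = p.1 k}
  one_mem' := ⟨1, one_ne_zero, by simp, by simp⟩
  mul_mem' := by
    rintro ⟨σ, π⟩ ⟨τ, ρ⟩ ⟨t, ht, h1, h2⟩ ⟨s, hs, h3, h4⟩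
    refine ⟨t * σ s, mul_ne_zero ht (by simpa using hs), fun c => ?_, ?_⟩
    · simp only [Prod.snd_mul, Prod.fst_mul, Equiv.Perm.coe_mul, Function.comp_apply,
        AlgEquiv.mul_apply] at *
      rw [h1, h3, map_mul, mul_assoc]
    · simp only [Prod.fst_mul, AlgEquiv.mul_apply] at *
      rw [← h4, map_mul, map_pow, ← h2]; ring
  inv_mem' := by
    rintro ⟨σ, π⟩ ⟨t, ht, h1, h2⟩
    simp only at h1 h2
    refine ⟨σ⁻¹ t⁻¹, by simpa using ht, fun c => ?_, ?_⟩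
    · have := h1 (π⁻¹ c)
      rw [show π (π⁻¹ c) = c by simp] at this
      simp only [Prod.snd_inv, Prod.fst_inv]
      rw [this, ← map_mul, inv_mul_cancel_left₀ ht]
      exact (σ.symm_apply_apply _).symm
    · simp only [Prod.fst_inv]
      apply σ.injective
      have e : ∀ x, σ (σ⁻¹ x) = x := fun x => σ.apply_symm_apply x
      rw [map_mul, map_pow, e, e, ← h2]
      field_simp

lemma pairs_inj {C : Finset (F × F × F)} (hC : ClosedSeven C) {k : F} (hk : k ≠ 0) :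
    Function.Injective ((MonoidHom.fst _ _).comp (pairs C k).subtype) := by
  rw [injective_iff_map_eq_one]
  rintro ⟨⟨σ, π⟩, t, ht, h1, h2⟩ h
  have hσ : σ = 1 := h
  subst hσ
  simp only [AlgEquiv.one_apply] at h1 h2
  have h6 : t ^ 6 = 1 := mul_right_cancel₀ hk (by rw [h2, one_mul])
  have h7 : t ^ 7 = 1 := by
    have e1 : ∏ c : C, (π c : F × F × F).2.2 = ∏ c : C, (c : F × F × F).2.2 :=
      Equiv.prod_comp π fun c : C => (c : F × F × F).2.2
    simp only [h1, Finset.prod_mul_distrib, Finset.prod_const, Finset.card_univ, Fintype.card_coe,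
      hC.1] at e1
    have e2 : ∏ c : C, (c : F × F × F).2.2 ≠ 0 :=
      Finset.prod_ne_zero_iff.2 fun c _ => (hC.2.1 c c.2).2
    exact mul_right_cancel₀ e2 (by rw [e1, one_mul])
  have ht1 : t = 1 := by
    rw [pow_succ, h6, one_mul] at h7; exact h7
  have : π = 1 := by
    ext1 c
    apply Subtype.ext
    refine hC.inj (π c).2 c.2 ?_
    rw [h1, ht1, one_mul]; rfl
  subst this
  rfl

theorem gl3 : ∀ a b c d e f g h i : ZMod 2,
    a * e * i - a * f * h - b * d * i + b * f * g + c * d * h - c * e * g ≠ 0 →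
    (!![a, b, c; d, e, f; g, h, i] : Matrix (Fin 3) (Fin 3) (ZMod 2)) ^ 3 = 1 ∨
    (!![a, b, c; d, e, f; g, h, i] : Matrix (Fin 3) (Fin 3) (ZMod 2)) ^ 4 = 1 ∨
    (!![a, b, c; d, e, f; g, h, i] : Matrix (Fin 3) (Fin 3) (ZMod 2)) ^ 7 = 1 := by
  decide +kernel

lemma order_bound {C : Finset (F × F × F)} (hC : ClosedSeven C) (π : Equiv.Perm C)
    (σ : F ≃+* F) (t : F) (ht : t ≠ 0)
    (h : ∀ c : C, (π c : F × F × F).2.2 = t * σ (c : F × F × F).2.2) :
    π ^ 3 = 1 ∨ π ^ 4 = 1 ∨ π ^ 7 = 1 := by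
  classical
  obtain ⟨S, hS, hmem⟩ := hC.space
  let e := Module.finBasisOfFinrankEq (ZMod 2) S (finrank_three S hS)
  have hmaps : ∀ x : S, t * σ x ∈ S := by
    rintro ⟨x, hx⟩
    rcases (hmem x).1 hx with rfl | ⟨c, hc, rfl⟩
    · simp
    · exact (hmem _).2 (Or.inr ⟨π ⟨c, hc⟩, (π ⟨c, hc⟩).2, h ⟨c, hc⟩⟩)
  let f : S →+ S :=
    { toFun := fun x => ⟨t * σ x, hmaps x⟩
      map_zero' := Subtype.ext (by simp)
      map_add' := fun x y => Subtype.ext (by simp [mul_add]) }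
  let φ : Module.End (ZMod 2) S := f.toZModLinearMap 2
  have hφ : ∀ x : S, ((φ x : S) : F) = t * σ x := fun x => rfl
  have hinj : Function.Injective φ := by
    intro x y hxy
    have := congrArg Subtype.val hxy
    rw [hφ, hφ] at this
    exact Subtype.ext (σ.injective (mul_left_cancel₀ ht this))
  have hdet : (LinearMap.toMatrix e e φ).det ≠ 0 := by
    rw [LinearMap.det_toMatrix]
    exact ((LinearMap.isUnit_iff_isUnit_det φ).1
      ((Module.End.isUnit_iff φ).2 (Finite.injective_iff_bijective.1 hinj))).ne_zero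
  have hpow : ∀ n : ℕ, LinearMap.toMatrix e e φ ^ n = 1 → π ^ n = 1 := by
    intro n hn
    rw [LinearMap.toMatrix_pow, ← LinearMap.toMatrix_one e] at hn
    have hn' : φ ^ n = 1 := (LinearMap.toMatrix e e).injective hn
    have hit : ∀ (m : ℕ) (c : C) (x : S), (x : F) = (c : F × F × F).2.2 →
        (((φ ^ m) x : S) : F) = ((π ^ m) c : F × F × F).2.2 := by
      intro m
      induction m with
      | zero => intro c x hx; simpa using hx
      | succ m ih =>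
        intro c x hx
        rw [pow_succ', pow_succ', Module.End.mul_apply, Equiv.Perm.mul_apply, hφ, h, ih c x hx]
    ext1 c
    apply Subtype.ext
    refine hC.inj ((π ^ n) c).2 c.2 ?_
    rw [← hit n c ⟨_, (hmem _).2 (Or.inr ⟨c, c.2, rfl⟩)⟩ rfl, hn']
    rfl
  rw [Matrix.det_fin_three] at hdet
  have := gl3 _ _ _ _ _ _ _ _ _ hdet
  rw [← Matrix.eta_fin_three] at this
  rcases this with h | h | h
  · exact Or.inl (hpow 3 h)
  · exact Or.inr (Or.inl (hpow 4 h))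
  · exact Or.inr (Or.inr (hpow 7 h))

theorem upper {C : Finset (F × F × F)} (hC : ClosedSeven C) (hD : ¬ Denniston C) :
    IsCyclic (induced C) ∧ Nat.card (induced C) ∈ ({1, 2, 3, 4, 7} : Set ℕ) ∧
      Nat.card (induced C) ∣ Module.finrank (ZMod 2) F := by
  obtain ⟨a0, a1, a2, ha⟩ := hC.coeff (fun c => c.1) (fun _ _ => rfl)
  obtain ⟨b0, b1, b2, hb⟩ := hC.coeff (fun c => c.2.1) (fun _ _ => rfl)
  have hk : a0 ^ 2 * b2 ^ 2 + a2 * b2 + b0 ^ 2 * a2 ^ 2 ≠ 0 := by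
    refine kappa_ne (hC.trace_const ha hb) ?_
    rintro ⟨rfl, rfl⟩
    exact hD (hC.denniston ha hb)
  set k := a0 ^ 2 * b2 ^ 2 + a2 * b2 + b0 ^ 2 * a2 ^ 2 with hkdef
  have hinj := pairs_inj hC hk
  have hcyc : IsCyclic (pairs C k) := isCyclic_of_injective _ hinj
  have hle : induced C ≤ (pairs C k).map (MonoidHom.snd _ _) := by
    intro π hπ
    obtain ⟨σ, t, ht, h1, h2⟩ := hC.rel ha hb hπ
    have hcomm : ∀ x : ZMod 2, σ (algebraMap (ZMod 2) F x) = algebraMap (ZMod 2) F x := by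
      intro x
      exact RingHom.congr_fun
        (RingHom.ext_zmod ((σ : F →+* F).comp (algebraMap (ZMod 2) F)) (algebraMap (ZMod 2) F)) x
    exact ⟨(AlgEquiv.ofRingEquiv hcomm, π), ⟨t, ht, h1, h2⟩, rfl⟩
  have hcyc2 : IsCyclic ((pairs C k).map (MonoidHom.snd _ _)) :=
    isCyclic_of_surjective _ (MonoidHom.subgroupMap_surjective (MonoidHom.snd _ _) (pairs C k))
  have hcyc3 : IsCyclic (induced C) := Subgroup.isCyclic_of_le hle
  refine ⟨hcyc3, ?_, ?_⟩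
  · obtain ⟨g, hg⟩ := IsCyclic.exists_ofOrder_eq_natCard (α := induced C)
    obtain ⟨σ, t, ht, h1, -⟩ := hC.rel ha hb g.2
    rw [← hg, ← Subgroup.orderOf_coe]
    rcases order_bound hC g σ t ht h1 with h | h | h
    · have := (Nat.dvd_prime (by norm_num)).1 (orderOf_dvd_of_pow_eq_one h)
      rcases this with h | h <;> simp [h]
    · have h4 : orderOf (g : Equiv.Perm C) ∣ 2 ^ 2 := orderOf_dvd_of_pow_eq_one h
      obtain ⟨i, hi, h⟩ := (Nat.dvd_prime_pow Nat.prime_two).1 h4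
      interval_cases i <;> simp [h]
    · have := (Nat.dvd_prime (by norm_num)).1 (orderOf_dvd_of_pow_eq_one h)
      rcases this with h | h <;> simp [h]
  · rw [← IsGalois.card_aut_eq_finrank]
    exact (Subgroup.card_dvd_of_le hle).trans ((Subgroup.card_map_dvd _ _).trans
      (Subgroup.card_dvd_of_injective _ hinj))

end Pool.Agent.MP_df3b73_co.H70
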